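import Pool.Agent.H812R4.HL.Asm
import Pool.Agent.H812R4.HL.T_SC
import Pool.Agent.H812R4.HL.T_UP
import Pool.Agent.H812R4.HL.T_BD
import Pool.Agent.H812R4.HL.T_SUP
import Pool.Agent.H812R4.HL.T_CNT
import Pool.Agent.H812R4.HL.T_AV
import Pool.Agent.H812R4.HL.T_MH
import Pool.Agent.H812R4.HL.T_VAR
import Pool.Agent.H812R4.HL.T_TOP

/-! MP_ef2672_gt: the cluster points of `γ_n / n` along a sequence with ratios tending to one. -/

open Filter Topology

namespace Pool.Agent.Results.MP_ef2672_gt.ClusterInterval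

/-- Hermite's constant `γ_n`: the expression of the frozen statement S09747 -/
noncomputable def hermite (n : ℕ) : ℝ :=
  ⨆ A : {A : Matrix (Fin n) (Fin n) ℝ // A.det ≠ 0},
    (⨅ w : {w : Fin n → ℤ // w ≠ 0}, ∑ i, (Matrix.mulVec A.1 (fun j => (w.1 j : ℝ))) i ^ 2)
      / |A.1.det| ^ ((2 : ℝ) / (n : ℝ))

open Pool.Agent.H812R4.HL in
theorem result (s : ℕ → ℕ) (hs : StrictMono s)
    (hr : Tendsto (fun k : ℕ => (s (k + 1) : ℝ) / (s k : ℝ)) atTop (𝓝 1)) (x : ℝ) :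
    MapClusterPt x atTop (fun k : ℕ => hermite (s k) / (s k : ℝ)) ↔
      liminf (fun n : ℕ => hermite n / (n : ℝ)) atTop ≤ x ∧
        x ≤ limsup (fun n : ℕ => hermite n / (n : ℝ)) atTop := by
  have hsup : S_SUP := t_SUP t_UP t_BD t_SC
  have hmh : S_MH := t_MH t_UP t_CNT t_AV
  exact main t_UP hsup hmh t_VAR t_TOP s hs hr x

end Pool.Agent.Results.MP_ef2672_gt.ClusterInterval
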