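import Pool.Agent.H390R2.LP.Main
import Pool.Agent.H390R2.LP.Hermite
import Pool.Agent.H232R2.LP.Final

/-! MP_ef2672_gt: an upper bound for Hermite's constant `γ_n` below the one of
Kabatiansky and Levenshtein: `limsup γ_n / n < 4^0.397 / (2πe)`, where `4^0.397 < 1.7339`. -/

open Filter Real

namespace Pool.Agent.Results.MP_ef2672_gt.HermiteLimsup

open Pool.Agent.H390R2.LP Pool.Agent.H232R2.LP Pool.Agent.H785R2.LP

theorem hermite_nonneg (n : ℕ) : 0 ≤ hermite n := by
  unfold hermite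
  refine Real.iSup_nonneg fun A => div_nonneg ?_ (Real.rpow_nonneg (abs_nonneg _) _)
  exact Real.iInf_nonneg fun w => Finset.sum_nonneg fun i _ => sq_nonneg _

theorem exists_bound : ∃ C : ℝ, C < 4 ^ (397 / 1000 : ℝ) / (2 * π * exp 1) ∧
    ∀ᶠ n : ℕ in atTop, hermite n / n ≤ C := by
  obtain ⟨Ω, i1, i2, q, s, hg, hhg, -, hs⟩ := exists_site_cval
  set ε : ℝ := (cval s hg - 603 / 1000 * Real.log 2) / 2 with hε
  have hε0 : 0 < ε := by rw [hε]; linarith
  have hcE : cE s hg = cval s hg := rfl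
  obtain ⟨n0, hn0⟩ := euclid iid s hg hhg ε hε0
  have hlog2 : 0 < Real.log 2 := Real.log_pos (by norm_num)
  set c : ℝ := 603 / 1000 + ε / Real.log 2 with hc
  have hc0 : (603 / 1000 : ℝ) < c := by
    have := div_pos hε0 hlog2
    rw [hc]; linarith
  have hrho : ∀ᶠ n : ℕ in atTop, rhoStar n ≤ ENNReal.ofReal (2 ^ (-(c * n))) := by
    filter_upwards [eventually_ge_atTop n0] with n hn
    have h1 := hn0 n hn
    have e : cE s hg - ε = c * Real.log 2 := by
      rw [hcE, hc, add_mul, div_mul_cancel₀ _ hlog2.ne', hε]; ring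
    rw [e] at h1
    have e2 : (2 : ℝ) ^ (-(c * n)) = Real.exp (-(n * (c * Real.log 2))) := by
      rw [Real.rpow_def_of_pos (by norm_num)]
      congr 1; ring
    rw [e2]
    exact h1
  have hpe : 0 < 2 * π * exp 1 := by positivity
  have hlt : (4 : ℝ) ^ (1 - c) / (2 * π * exp 1) < 4 ^ (397 / 1000 : ℝ) / (2 * π * exp 1) := by
    apply div_lt_div_of_pos_right _ hpe
    apply Real.rpow_lt_rpow_of_exponent_lt (by norm_num)
    linarith
  obtain ⟨C, hC1, hC2⟩ := exists_between hlt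
  refine ⟨C, hC2, ?_⟩
  have h := hermite_asymp c hrho (C - (4 : ℝ) ^ (1 - c) / (2 * π * exp 1)) (by linarith)
  filter_upwards [h] with n hn
  linarith

theorem result :
    (∀ᶠ n : ℕ in atTop, hermite n / n < 4 ^ (397 / 1000 : ℝ) / (2 * π * exp 1)) ∧
    limsup (fun n : ℕ => hermite n / n) atTop < 4 ^ (397 / 1000 : ℝ) / (2 * π * exp 1) := by
  obtain ⟨C, hC, h⟩ := exists_bound
  refine ⟨h.mono fun n hn => hn.trans_lt hC, lt_of_le_of_lt (limsup_le_of_le ?_ h) hC⟩
  exact IsBoundedUnder.isCoboundedUnder_le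
    ⟨0, eventually_map.mpr (Eventually.of_forall fun n => div_nonneg (hermite_nonneg n) n.cast_nonneg)⟩

end Pool.Agent.Results.MP_ef2672_gt.HermiteLimsup
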