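import Pool.Agent.H282R6.HC.Mord
import Pool.Agent.H282R6.HC.Line
import Pool.Agent.H282R6.HC.Step
import Pool.Agent.H282R6.HC.Spar

/-! Hermite's constant (MP_ef2672_gt): `γ_n / n` varies slowly. -/

namespace Pool.Agent.Results.MP_ef2672_gt.SlowVariation

open Pool.Agent.H282R6.HC

/-- There is `K > 0` with `|γ_m / m - γ_n / n| ≤ K (m - n) log n / n` for all `3 ≤ n ≤ m`. -/
theorem result :
    ∃ K : ℝ, 0 < K ∧ ∀ n m : ℕ, 3 ≤ n → n ≤ m →
      |gam m / (m : ℝ) - gam n / (n : ℝ)| ≤ K * (((m : ℝ) - n) * Real.log n / n) := by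
  obtain ⟨K, hK, h⟩ := step gam (fun n hn => (gam_basic n hn).1)
    (fun n hn => (gam_basic n hn).2.1) mordell sum_line
  refine ⟨K, hK, fun n m hn hm => ?_⟩
  have h1 := spar_run (fun n : ℕ => gam n / (n : ℝ)) K hK.le h n hn (m - n)
  simp only [Nat.add_sub_cancel' hm] at h1
  rwa [Nat.cast_sub hm] at h1

end Pool.Agent.Results.MP_ef2672_gt.SlowVariation
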